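import Mathlib
import Pool.Agent.H63.OB.Xor

/-!
Odd covers of `[n]^d` by odd proper boxes, test sets in the coordinates of `K`.
-/

set_option autoImplicit false

namespace Pool.Agent.H79.OB

open Finset Pool.Agent.H63.OB

variable {n d : ℕ}

private theorem odd_prod {ι : Type*} (s : Finset ι) (f : ι → ℕ) : Odd (∏ i ∈ s, f i) ↔ ∀ i ∈ s, Odd (f i) := by
  constructor
  · intro h i hi
    exact Odd.of_dvd_nat h (Finset.dvd_prod_of_mem f hi)
  · intro h
    exact Finset.prod_induction _ Odd (fun _ _ => Odd.mul) odd_one h

/-- in an odd cover the number of boxes meeting a product of odd sets oddly in every coordinate is odd -/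
theorem parity (J : Finset (Box n d)) (hc : ∀ x : Fin d → Fin n, Odd (cnt J (fun b => b) x))
    (X : Fin d → Finset (Fin n)) (hX : ∀ i, Odd (X i).card) :
    Odd (J.filter (fun b => ∀ i, Odd (X i ∩ b i).card)).card := by
  have h1 : Odd (∑ x ∈ Fintype.piFinset X, cnt J (fun b => b) x) := by
    rw [Finset.odd_sum_iff_odd_card_odd, Finset.filter_true_of_mem (fun x _ => hc x), Fintype.card_piFinset]
    exact Finset.prod_induction _ Odd (fun _ _ => Odd.mul) odd_one (fun i _ => hX i)
  have h2 : ∑ x ∈ Fintype.piFinset X, cnt J (fun b => b) x = ∑ b ∈ J, ∏ i, (X i ∩ b i).card := by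
    unfold cnt
    simp_rw [Finset.card_filter]
    rw [Finset.sum_comm]
    apply Finset.sum_congr rfl
    intro b _
    rw [← Finset.card_filter, ← Fintype.card_piFinset]
    congr 1
    ext x
    rw [mem_filter, Fintype.mem_piFinset, Fintype.mem_piFinset]
    constructor
    · rintro ⟨h, h'⟩ i
      exact mem_inter.2 ⟨h i, h' i⟩
    · intro h
      exact ⟨fun i => (mem_inter.1 (h i)).1, fun i => (mem_inter.1 (h i)).2⟩
  rw [h2, Finset.odd_sum_iff_odd_card_odd] at h1
  have h3 : (J.filter (fun b => Odd (∏ i, (X i ∩ b i).card))) = J.filter (fun b => ∀ i, Odd (X i ∩ b i).card) := by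
    apply Finset.filter_congr
    intro b _
    rw [odd_prod]
    constructor
    · intro h i
      exact h i (mem_univ i)
    · intro h i _
      exact h i
  rw [h3] at h1
  exact h1

/-- fix odd test sets in the coordinates of `K` -/
theorem many (hn : Odd n) (J : Finset (Box n d)) (hb : ∀ b ∈ J, ∀ i, Odd (b i).card ∧ b i ≠ univ)
    (hc : ∀ x : Fin d → Fin n, Odd (cnt J (fun b => b) x)) (K : Finset (Fin d)) (R : Fin d → Finset (Fin n))
    (hR : ∀ i ∈ K, Odd (R i).card) :
    2 ^ (d - K.card + 1) ≤ (J.filter (fun b => ∀ i ∈ K, Odd (R i ∩ b i).card)).card + 1 := by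
  have hcard : Fintype.card {i : Fin d // i ∉ K} = d - K.card := by
    rw [Fintype.card_subtype_compl, Fintype.card_fin, Fintype.card_coe]
  let e : {i : Fin d // i ∉ K} ≃ Fin (d - K.card) := Fintype.equivFinOfCardEq hcard
  apply xor_cover hn (d - K.card) _ (fun b i => b (e.symm i).1)
  · intro b hbm i
    exact hb b (mem_filter.1 hbm).1 _
  · intro x
    let X : Fin d → Finset (Fin n) := fun i => if h : i ∈ K then R i else {x (e ⟨i, h⟩)}
    have hX : ∀ i, Odd (X i).card := by
      intro i
      by_cases h : i ∈ K
      · have : X i = R i := dif_pos h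
        rw [this]
        exact hR i h
      · have : X i = {x (e ⟨i, h⟩)} := dif_neg h
        rw [this, Finset.card_singleton]
        exact odd_one
    have h1 := parity J hc X hX
    unfold cnt
    rw [Finset.filter_filter]
    have h2 : (J.filter (fun b => (∀ i ∈ K, Odd (R i ∩ b i).card) ∧ ∀ i, x i ∈ b (e.symm i).1)) =
        J.filter (fun b => ∀ i, Odd (X i ∩ b i).card) := by
      apply Finset.filter_congr
      intro b _
      constructor
      · rintro ⟨h3, h4⟩ i
        by_cases h : i ∈ K
        · have : X i = R i := dif_pos h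
          rw [this]
          exact h3 i h
        · have : X i = {x (e ⟨i, h⟩)} := dif_neg h
          rw [this]
          have h5 := h4 (e ⟨i, h⟩)
          rw [Equiv.symm_apply_apply] at h5
          rw [Finset.singleton_inter_of_mem h5, Finset.card_singleton]
          exact odd_one
      · intro h3
        constructor
        · intro i hi
          have h4 := h3 i
          have : X i = R i := dif_pos hi
          rw [this] at h4
          exact h4
        · intro i
          have h4 := h3 (e.symm i).1
          have : X (e.symm i).1 = {x (e ⟨(e.symm i).1, (e.symm i).2⟩)} := dif_neg (e.symm i).2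
          rw [this] at h4
          have h5 : e ⟨(e.symm i).1, (e.symm i).2⟩ = i := by
            rw [Subtype.coe_eta, Equiv.apply_symm_apply]
          rw [h5] at h4
          by_contra h6
          rw [Finset.singleton_inter_of_notMem h6] at h4
          simp at h4
    rw [h2]
    exact h1

end Pool.Agent.H79.OB
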