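import Mathlib
import Pool.Agent.H79.OB.Many

/-!
The inequality with traces. Test sets of `A`: the odd sets `Q` or `Q ∪ Aᶜ` with `Q ⊆ A`.
-/

set_option autoImplicit false

namespace Pool.Agent.H79.OB

open Finset Pool.Agent.H63.OB

variable {n d : ℕ}

/-- the test set with index `t` -/
def tst (A : Finset (Fin n)) (t : Finset (Fin n) × Bool) : Finset (Fin n) := if t.2 then t.1 ∪ Aᶜ else t.1

/-- index set -/
def idx (A : Finset (Fin n)) : Finset (Finset (Fin n) × Bool) := A.powerset ×ˢ univ

private theorem sgn_union' (B S T : Finset (Fin n)) (h : Disjoint S T) :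
    sgn B (S ∪ T) = sgn B S * sgn B T := by
  unfold sgn
  rw [Finset.prod_union h]

private theorem sum_sgn_sub' (A B : Finset (Fin n)) :
    ∑ S ∈ A.powerset, sgn B S = if Disjoint A B then (2 : ℤ) ^ A.card else 0 := by
  unfold sgn
  rw [← Finset.prod_one_add]
  split_ifs with h
  · rw [Finset.prod_congr rfl (g := fun _ => (2 : ℤ))]
    · rw [Finset.prod_const]
    · intro x hx
      rw [if_neg (Finset.disjoint_left.1 h hx)]
      norm_num
  · rw [Finset.not_disjoint_iff] at h
    obtain ⟨x, hx, hB⟩ := h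
    apply Finset.prod_eq_zero hx
    rw [if_pos hB]
    norm_num

/-- the signed sum over the odd test sets -/
theorem TS_sgn (A D : Finset (Fin n)) :
    ∑ t ∈ idx A, (1 - sgn univ (tst A t)) * sgn D (tst A t) =
      (1 + sgn D Aᶜ) * (if Disjoint A D then (2 : ℤ) ^ A.card else 0) -
      (1 + sgn univ Aᶜ * sgn D Aᶜ) * (if Disjoint A Dᶜ then (2 : ℤ) ^ A.card else 0) := by
  unfold idx
  rw [Finset.sum_product]
  have hd : ∀ S ∈ A.powerset, Disjoint S Aᶜ := by
    intro S hS
    rw [Finset.disjoint_left]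
    intro x hx hx2
    exact (mem_compl.1 hx2) (mem_powerset.1 hS hx)
  have h1 : ∀ S ∈ A.powerset, ∑ ε : Bool, (1 - sgn univ (tst A (S, ε))) * sgn D (tst A (S, ε)) =
      (1 + sgn D Aᶜ) * sgn D S - (1 + sgn univ Aᶜ * sgn D Aᶜ) * sgn Dᶜ S := by
    intro S hS
    rw [Fintype.sum_bool]
    show (1 - sgn univ (S ∪ Aᶜ)) * sgn D (S ∪ Aᶜ) + (1 - sgn univ S) * sgn D S = _
    rw [sgn_union' _ _ _ (hd S hS), sgn_union' _ _ _ (hd S hS), ← sgn_mul_univ D S]
    ring
  rw [Finset.sum_congr rfl h1, Finset.sum_sub_distrib, ← Finset.mul_sum, ← Finset.mul_sum, sum_sgn_sub', sum_sgn_sub']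

private theorem split_card (A D : Finset (Fin n)) : (Aᶜ ∩ D).card + (A ∩ D).card = D.card := by
  have h5 := Finset.card_inter_add_card_sdiff D A
  rw [Finset.sdiff_eq_inter_compl] at h5
  rw [Finset.inter_comm A D, add_comm, Finset.inter_comm Aᶜ D]
  exact h5

/-- mean zero of a single side that does not contain `A` -/
theorem TS_one (A S : Finset (Fin n)) (hS : Odd S.card) (hAS : ¬ A ⊆ S) :
    ∑ t ∈ idx A, (1 - sgn univ (tst A t)) * sgn S (tst A t) = 0 := by
  rw [TS_sgn]
  have h2 : ¬ Disjoint A Sᶜ := by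
    intro h
    apply hAS
    intro x hx
    by_contra hx2
    exact Finset.disjoint_left.1 h hx (mem_compl.2 hx2)
  rw [if_neg h2, mul_zero, sub_zero]
  by_cases h3 : Disjoint A S
  · have h4 : sgn S Aᶜ = -1 := by
      rw [sgn_eq]
      apply Odd.neg_one_pow
      have hBA := split_card A S
      rw [Finset.disjoint_iff_inter_eq_empty.1 h3, Finset.card_empty, add_zero] at hBA
      rw [hBA]
      exact hS
    rw [h4]
    ring
  · rw [if_neg h3, mul_zero]

/-- number of test sets -/
theorem TS_const (A : Finset (Fin n)) (hA : A.Nonempty) :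
    ∑ t ∈ idx A, (1 - sgn univ (tst A t)) = 2 * 2 ^ A.card := by
  have h := TS_sgn A (∅ : Finset (Fin n))
  have h0 : ∀ R : Finset (Fin n), sgn ∅ R = 1 := by
    intro R
    rw [sgn_eq, Finset.inter_empty, Finset.card_empty, pow_zero]
  have h1 : ¬ Disjoint A (∅ : Finset (Fin n))ᶜ := by
    intro h
    obtain ⟨x, hx⟩ := hA
    exact Finset.disjoint_left.1 h hx (mem_compl.2 (Finset.notMem_empty x))
  simp_rw [h0] at h
  rw [if_pos (Finset.disjoint_empty_right A), if_neg h1] at h
  simp_rw [mul_one] at h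
  rw [h]
  ring

private theorem sgn_mul (S T R : Finset (Fin n)) : sgn S R * sgn T R = sgn (symmDiff S T) R := by
  unfold sgn
  rw [← Finset.prod_mul_distrib]
  apply Finset.prod_congr rfl
  intro x _
  by_cases h1 : x ∈ S <;> by_cases h2 : x ∈ T <;> simp [Finset.mem_symmDiff, h1, h2]

/-- two sides: orthogonal unless they have the same trace on `A` -/
theorem TS_two (hn : Odd n) (A S T : Finset (Fin n)) (hA : A.Nonempty) (hS : Odd S.card) (hT : Odd T.card) :
    ∑ t ∈ idx A, (1 - sgn univ (tst A t)) * (sgn S (tst A t) * sgn T (tst A t)) =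
      if S ∩ A = T ∩ A then 2 * 2 ^ A.card else 0 := by
  simp_rw [sgn_mul]
  rw [TS_sgn]
  have hcard : Even (symmDiff S T).card := by
    have h1 : (symmDiff S T).card = (S \ T).card + (T \ S).card := by
      have h2 : symmDiff S T = (S \ T) ∪ (T \ S) := rfl
      rw [h2]
      exact Finset.card_union_of_disjoint disjoint_sdiff_sdiff
    have h3 := Finset.card_inter_add_card_sdiff S T
    have h4 := Finset.card_inter_add_card_sdiff T S
    rw [Finset.inter_comm T S] at h4
    obtain ⟨u, hu⟩ := hS
    obtain ⟨v, hv⟩ := hT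
    rw [Nat.even_iff]
    omega
  have hBA := split_card A (symmDiff S T)
  have hAA : (Aᶜ).card + A.card = n := by
    have := Finset.card_compl_add_card A
    rw [Fintype.card_fin] at this
    exact this
  by_cases h : S ∩ A = T ∩ A
  · have h1 : Disjoint A (symmDiff S T) := by
      rw [Finset.disjoint_left]
      intro x hx hx2
      have h2 := Finset.ext_iff.1 h x
      rw [mem_inter, mem_inter] at h2
      rw [Finset.mem_symmDiff] at hx2
      tauto
    have h2 : ¬ Disjoint A (symmDiff S T)ᶜ := by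
      intro h3
      obtain ⟨x, hx⟩ := hA
      exact Finset.disjoint_left.1 h3 hx (mem_compl.2 (Finset.disjoint_left.1 h1 hx))
    have h3 : sgn (symmDiff S T) Aᶜ = 1 := by
      rw [sgn_eq]
      apply Even.neg_one_pow
      rw [Finset.disjoint_iff_inter_eq_empty.1 h1, Finset.card_empty, add_zero] at hBA
      rw [hBA]
      exact hcard
    rw [if_pos h, if_pos h1, if_neg h2, h3]
    ring
  · have h1 : ¬ Disjoint A (symmDiff S T) := by
      intro h3
      apply h
      ext x
      rw [mem_inter, mem_inter]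
      by_cases hx : x ∈ A
      · have h4 := Finset.disjoint_left.1 h3 hx
        rw [Finset.mem_symmDiff] at h4
        tauto
      · tauto
    rw [if_neg h, if_neg h1, mul_zero, zero_sub, neg_eq_zero]
    by_cases h2 : Disjoint A (symmDiff S T)ᶜ
    · have h3 : A ⊆ symmDiff S T := by
        intro x hx
        by_contra hx2
        exact Finset.disjoint_left.1 h2 hx (mem_compl.2 hx2)
      have h4 : sgn univ Aᶜ * sgn (symmDiff S T) Aᶜ = -1 := by
        rw [sgn_eq, sgn_eq, Finset.inter_univ, ← pow_add]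
        apply Odd.neg_one_pow
        rw [Finset.inter_eq_left.2 h3] at hBA
        obtain ⟨u, hu1⟩ := hcard
        obtain ⟨v, hv1⟩ := hn
        rw [Nat.odd_iff]
        omega
      rw [h4]
      ring
    · rw [if_neg h2, mul_zero]

end Pool.Agent.H79.OB
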