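import Mathlib
import Pool.Agent.H79.OB.Trace

/-!
One coordinate: a test set that few of the popular sides meet oddly (second moment), and the induction.
-/

set_option autoImplicit false

namespace Pool.Agent.H79.OB

open Finset Pool.Agent.H63.OB

variable {n d : ℕ}

/-- a good test set -/
theorem exists_test {ι : Type*} (hn : Odd n) (A : Finset (Fin n)) (hA : A.Nonempty) (F : Finset (Finset (Fin n)))
    (hF : ∀ T ∈ F, T ⊂ A) (J : Finset ι) (S : ι → Finset (Fin n)) (hS : ∀ j ∈ J, Odd (S j).card)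
    (hJ : ∀ j ∈ J, S j ∩ A ∈ F) (w : ι → ℝ) (hw : ∀ j ∈ J, 0 ≤ w j) :
    ∃ R : Finset (Fin n), Odd R.card ∧ (∑ j ∈ J, w j) / F.card ≤ ∑ j ∈ J, w j * (sgn (S j) R : ℝ) := by
  by_contra hcon
  push Not at hcon
  set W := ∑ j ∈ J, w j with hW
  set X : Finset (Fin n) → ℝ := fun R => ∑ j ∈ J, w j * (sgn (S j) R : ℝ) with hX
  set ω : Finset (Fin n) × Bool → ℝ := fun t => ((1 - sgn univ (tst A t) : ℤ) : ℝ) with hω
  have hω0 : ∀ t, 0 ≤ ω t := by
    intro t
    rw [hω]
    show (0 : ℝ) ≤ ((1 - sgn univ (tst A t) : ℤ) : ℝ)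
    rw [one_sub_sgn]
    split_ifs <;> norm_num
  have hω1 : ∀ t, ¬ Odd (tst A t).card → ω t = 0 := by
    intro t ht
    show ((1 - sgn univ (tst A t) : ℤ) : ℝ) = 0
    rw [one_sub_sgn, Finset.inter_univ, if_neg ht]
    norm_num
  have hω2 : ∀ t, Odd (tst A t).card → ω t = 2 := by
    intro t ht
    show ((1 - sgn univ (tst A t) : ℤ) : ℝ) = 2
    rw [one_sub_sgn, Finset.inter_univ, if_pos ht]
    norm_num
  have hsum : ∑ t ∈ idx A, ω t = 2 * 2 ^ A.card := by
    have h := TS_const A hA
    have h1 : ((∑ t ∈ idx A, (1 - sgn univ (tst A t)) : ℤ) : ℝ) = ((2 * 2 ^ A.card : ℤ) : ℝ) := by rw [h]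
    rw [Int.cast_sum] at h1
    push_cast at h1 ⊢
    rw [← h1]
    apply Finset.sum_congr rfl
    intro t _
    show ((1 - sgn univ (tst A t) : ℤ) : ℝ) = _
    push_cast
    rfl
  have hpos : (0 : ℝ) < 2 * 2 ^ A.card := by positivity
  have hex : ∃ t ∈ idx A, Odd (tst A t).card := by
    by_contra h
    push Not at h
    have h1 : ∑ t ∈ idx A, ω t = 0 := Finset.sum_eq_zero (fun t ht => hω1 t (h t ht))
    rw [hsum] at h1
    linarith
  have hnsub : ∀ j ∈ J, ¬ A ⊆ S j := by
    intro j hj h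
    have h1 := hF _ (hJ j hj)
    rw [Finset.inter_eq_right.2 h] at h1
    exact h1.ne rfl
  have hmean : ∑ t ∈ idx A, ω t * X (tst A t) = 0 := by
    have h1 : ∀ t ∈ idx A, ω t * X (tst A t) = ∑ j ∈ J, w j * (ω t * (sgn (S j) (tst A t) : ℝ)) := by
      intro t _
      rw [hX]
      show ω t * ∑ j ∈ J, w j * (sgn (S j) (tst A t) : ℝ) = _
      rw [Finset.mul_sum]
      apply Finset.sum_congr rfl
      intro j _
      ring
    rw [Finset.sum_congr rfl h1, Finset.sum_comm]
    apply Finset.sum_eq_zero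
    intro j hj
    rw [← Finset.mul_sum]
    have h2 := TS_one A (S j) (hS j hj) (hnsub j hj)
    have h3 : ∑ t ∈ idx A, ω t * (sgn (S j) (tst A t) : ℝ) = 0 := by
      have h4 : ((∑ t ∈ idx A, (1 - sgn univ (tst A t)) * sgn (S j) (tst A t) : ℤ) : ℝ) = 0 := by
        rw [h2]
        norm_num
      rw [Int.cast_sum] at h4
      rw [← h4]
      apply Finset.sum_congr rfl
      intro t _
      exact (Int.cast_mul _ _).symm
    rw [h3, mul_zero]
  have hsq : ∑ t ∈ idx A, ω t * X (tst A t) ^ 2 =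
      2 * 2 ^ A.card * ∑ T ∈ F, (∑ j ∈ J with S j ∩ A = T, w j) ^ 2 := by
    have h1 : ∀ t ∈ idx A, ω t * X (tst A t) ^ 2 =
        ∑ j ∈ J, ∑ k ∈ J, w j * w k * (ω t * ((sgn (S j) (tst A t) * sgn (S k) (tst A t) : ℤ) : ℝ)) := by
      intro t _
      show ω t * (∑ j ∈ J, w j * (sgn (S j) (tst A t) : ℝ)) ^ 2 = _
      rw [sq, Finset.sum_mul_sum, Finset.mul_sum]
      apply Finset.sum_congr rfl
      intro j _
      rw [Finset.mul_sum]
      apply Finset.sum_congr rfl
      intro k _
      rw [Int.cast_mul]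
      ring
    rw [Finset.sum_congr rfl h1, Finset.sum_comm]
    have h2 : ∀ j ∈ J, ∑ t ∈ idx A, ∑ k ∈ J, w j * w k * (ω t * ((sgn (S j) (tst A t) * sgn (S k) (tst A t) : ℤ) : ℝ)) =
        2 * 2 ^ A.card * (w j * ∑ k ∈ J with S k ∩ A = S j ∩ A, w k) := by
      intro j hj
      rw [Finset.sum_comm, Finset.sum_filter, Finset.mul_sum, Finset.mul_sum]
      apply Finset.sum_congr rfl
      intro k hk
      rw [← Finset.mul_sum]
      have h3 := TS_two hn A (S j) (S k) hA (hS j hj) (hS k hk)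
      have h4 : ∑ t ∈ idx A, ω t * ((sgn (S j) (tst A t) * sgn (S k) (tst A t) : ℤ) : ℝ) =
          if S j ∩ A = S k ∩ A then 2 * 2 ^ A.card else 0 := by
        have h5 : ((∑ t ∈ idx A, (1 - sgn univ (tst A t)) * (sgn (S j) (tst A t) * sgn (S k) (tst A t)) : ℤ) : ℝ) =
            ((if S j ∩ A = S k ∩ A then 2 * 2 ^ A.card else 0 : ℤ) : ℝ) := by rw [h3]
        rw [Int.cast_sum] at h5
        have h6 : ((if S j ∩ A = S k ∩ A then 2 * 2 ^ A.card else 0 : ℤ) : ℝ) =
            if S j ∩ A = S k ∩ A then 2 * 2 ^ A.card else 0 := by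
          split_ifs
          · push_cast
            rfl
          · norm_num
        rw [h6] at h5
        rw [← h5]
        apply Finset.sum_congr rfl
        intro t _
        exact (Int.cast_mul _ _).symm
      rw [h4]
      by_cases h7 : S j ∩ A = S k ∩ A
      · rw [if_pos h7, if_pos h7.symm]
        ring
      · rw [if_neg h7, if_neg (fun h => h7 h.symm)]
        ring
    rw [Finset.sum_congr rfl h2, ← Finset.mul_sum]
    congr 1
    rw [← Finset.sum_fiberwise_of_maps_to hJ]
    apply Finset.sum_congr rfl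
    intro T _
    rw [sq, Finset.sum_mul]
    apply Finset.sum_congr rfl
    intro j hj
    rw [(mem_filter.1 hj).2]
  have hWF : W = ∑ T ∈ F, ∑ j ∈ J with S j ∩ A = T, w j := by
    rw [Finset.sum_fiberwise_of_maps_to hJ]
  have hCS : W ^ 2 ≤ F.card * ∑ T ∈ F, (∑ j ∈ J with S j ∩ A = T, w j) ^ 2 := by
    rw [hWF]
    exact sq_sum_le_card_mul_sum_sq
  have hXW : ∀ R, 0 ≤ W + X R := by
    intro R
    rw [hW, hX, ← Finset.sum_add_distrib]
    apply Finset.sum_nonneg
    intro j hj
    have h1 : (-1 : ℝ) ≤ (sgn (S j) R : ℝ) := by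
      have h2 : (-1 : ℤ) ≤ sgn (S j) R := by
        rw [sgn_eq]
        rcases neg_one_pow_eq_or ℤ (R ∩ S j).card with h | h <;> rw [h]
        norm_num
      exact_mod_cast h2
    nlinarith [hw j hj]
  obtain ⟨t0, ht0, ht0'⟩ := hex
  by_cases hF0 : F.card = 0
  · have h1 : J = ∅ := by
      rw [Finset.eq_empty_iff_forall_notMem]
      intro j hj
      have h2 := hJ j hj
      rw [Finset.card_eq_zero.1 hF0] at h2
      exact Finset.notMem_empty _ h2
    have h2 := hcon _ ht0'
    rw [hW, h1] at h2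
    simp at h2
  · have hr : (0 : ℝ) < F.card := by
      have : 0 < F.card := Nat.pos_of_ne_zero hF0
      exact_mod_cast this
    have hterm : ∀ t ∈ idx A, 0 ≤ ω t * ((W / F.card - X (tst A t)) * (W + X (tst A t))) := by
      intro t _
      by_cases ht : Odd (tst A t).card
      · exact mul_nonneg (hω0 t) (mul_nonneg (sub_pos.2 (hcon _ ht)).le (hXW _))
      · rw [hω1 t ht, zero_mul]
    have htot : ∑ t ∈ idx A, ω t * ((W / F.card - X (tst A t)) * (W + X (tst A t))) ≤ 0 := by
      have h1 : ∀ t ∈ idx A, ω t * ((W / F.card - X (tst A t)) * (W + X (tst A t))) =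
          W ^ 2 / F.card * ω t + (W / F.card - W) * (ω t * X (tst A t)) - ω t * X (tst A t) ^ 2 := by
        intro t _
        ring
      rw [Finset.sum_congr rfl h1, Finset.sum_sub_distrib, Finset.sum_add_distrib, ← Finset.mul_sum, ← Finset.mul_sum,
        hmean, hsum, hsq, mul_zero, add_zero]
      have h2 : W ^ 2 / F.card ≤ ∑ T ∈ F, (∑ j ∈ J with S j ∩ A = T, w j) ^ 2 := by
        rw [div_le_iff₀ hr]
        linarith
      nlinarith
    have hzero := (Finset.sum_eq_zero_iff_of_nonneg hterm).1 (le_antisymm htot (Finset.sum_nonneg hterm))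
    have hall : ∀ t ∈ idx A, ω t * X (tst A t) = - W * ω t := by
      intro t ht
      by_cases h : Odd (tst A t).card
      · have h1 := hzero t ht
        rw [hω2 t h] at h1
        have h2 : 0 < W / F.card - X (tst A t) := sub_pos.2 (hcon _ h)
        have h3 : W + X (tst A t) = 0 := by
          rcases mul_eq_zero.1 h1 with h4 | h4
          · norm_num at h4
          · rcases mul_eq_zero.1 h4 with h5 | h5
            · linarith
            · exact h5
        rw [hω2 t h]
        linarith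
      · rw [hω1 t h]
        ring
    have hW0 : W = 0 := by
      rw [Finset.sum_congr rfl hall, ← Finset.mul_sum, hsum] at hmean
      rcases mul_eq_zero.1 hmean with h | h
      · linarith
      · linarith
    have h1 := hcon _ ht0'
    have h2 := hXW (tst A t0)
    rw [hW0, zero_div] at h1
    rw [hW0, zero_add] at h2
    exact absurd h1 (not_lt.2 h2)

end Pool.Agent.H79.OB
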