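import Mathlib
import Pool.Agent.H79.OB.Step

/-!
The inequality with traces, and its consequence for the number of boxes.
-/

set_option autoImplicit false

namespace Pool.Agent.H79.OB

open Finset Pool.Agent.H63.OB

variable {n d : ℕ}

/-- the factor of a side `B`: `(1 - 1 / |F|) / 2` if the trace of `B` on `A` is in `F`, else `1` -/
noncomputable def fac (A : Finset (Fin n)) (F : Finset (Finset (Fin n))) (B : Finset (Fin n)) : ℝ :=
  if B ∩ A ∈ F then (1 - 1 / F.card) / 2 else 1

theorem fac_nonneg (A : Finset (Fin n)) (F : Finset (Finset (Fin n))) (B : Finset (Fin n)) : 0 ≤ fac A F B := by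
  unfold fac
  split_ifs with h
  · have h1 : (1 : ℝ) ≤ F.card := by
      have : 1 ≤ F.card := Finset.card_pos.2 ⟨_, h⟩
      exact_mod_cast this
    have h2 : 1 / (F.card : ℝ) ≤ 1 := by
      rw [div_le_one (by linarith)]
      exact h1
    linarith
  · exact zero_le_one

/-- one coordinate -/
theorem step {ι : Type*} (hn : Odd n) (A : Finset (Fin n)) (F : Finset (Finset (Fin n)))
    (hF : ∀ T ∈ F, T ⊂ A) (J : Finset ι) (S : ι → Finset (Fin n)) (hS : ∀ j ∈ J, Odd (S j).card)
    (w : ι → ℝ) (hw : ∀ j ∈ J, 0 ≤ w j) :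
    ∃ R : Finset (Fin n), Odd R.card ∧ ∑ j ∈ J with Odd (R ∩ S j).card, w j ≤ ∑ j ∈ J, w j * fac A F (S j) := by
  by_cases hA : A.Nonempty
  · obtain ⟨R, hR, h⟩ := exists_test hn A hA F hF (J.filter (fun j => S j ∩ A ∈ F)) S
      (fun j hj => hS j (mem_filter.1 hj).1) (fun j hj => (mem_filter.1 hj).2) w (fun j hj => hw j (mem_filter.1 hj).1)
    refine ⟨R, hR, ?_⟩
    have e1 : ∀ j ∈ J, w j * fac A F (S j) = (if S j ∩ A ∈ F then w j * ((1 - 1 / F.card) / 2) else w j) := by
      intro j _
      unfold fac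
      split_ifs
      · rfl
      · rw [mul_one]
    have e2 : ∀ j ∈ J, (if Odd (R ∩ S j).card then w j else 0) ≤
        (if S j ∩ A ∈ F then (w j - w j * (sgn (S j) R : ℝ)) / 2 else w j) := by
      intro j hj
      have h1 : (sgn (S j) R : ℝ) = if Odd (R ∩ S j).card then -1 else 1 := by
        have h2 := one_sub_sgn (S j) R
        split_ifs at h2 ⊢ with h3
        · have : sgn (S j) R = -1 := by linarith
          rw [this]
          norm_num
        · have : sgn (S j) R = 1 := by linarith
          rw [this]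
          norm_num
      rw [h1]
      have h4 := hw j hj
      split_ifs <;> linarith
    rw [Finset.sum_filter]
    refine (Finset.sum_le_sum e2).trans ?_
    rw [Finset.sum_congr rfl e1, Finset.sum_ite, Finset.sum_ite]
    apply add_le_add_left
    rw [← Finset.sum_div, Finset.sum_sub_distrib, ← Finset.sum_mul]
    have h5 : (∑ j ∈ J with S j ∩ A ∈ F, w j) * ((1 - 1 / F.card) / 2) =
        ((∑ j ∈ J with S j ∩ A ∈ F, w j) - (∑ j ∈ J with S j ∩ A ∈ F, w j) / F.card) / 2 := by ring
    rw [h5]
    linarith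
  · have hA0 : A = ∅ := Finset.not_nonempty_iff_eq_empty.1 hA
    have hF0 : ∀ B : Finset (Fin n), B ∩ A ∉ F := by
      intro B hB
      have h1 := hF _ hB
      rw [hA0] at h1
      exact Finset.not_ssubset_empty _ h1
    refine ⟨univ, by rw [Finset.card_univ, Fintype.card_fin]; exact hn, ?_⟩
    have e1 : ∀ j ∈ J, w j * fac A F (S j) = w j := by
      intro j _
      unfold fac
      rw [if_neg (hF0 _), mul_one]
    rw [Finset.sum_congr rfl e1]
    exact Finset.sum_le_sum_of_subset_of_nonneg (Finset.filter_subset _ _) (fun j hj _ => hw j hj)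

/-- all coordinates of `K` -/
theorem steps (hn : Odd n) (A : Fin d → Finset (Fin n)) (F : Fin d → Finset (Finset (Fin n)))
    (J : Finset (Box n d)) (hb : ∀ b ∈ J, ∀ i, Odd (b i).card) (K : Finset (Fin d)) :
    (∀ i ∈ K, ∀ T ∈ F i, T ⊂ A i) → ∀ w : Box n d → ℝ, (∀ b ∈ J, 0 ≤ w b) →
    ∃ R : Fin d → Finset (Fin n), (∀ i ∈ K, Odd (R i).card) ∧
      ∑ b ∈ J with ∀ i ∈ K, Odd (R i ∩ b i).card, w b ≤ ∑ b ∈ J, w b * ∏ i ∈ K, fac (A i) (F i) (b i) := by
  induction K using Finset.induction_on with
  | empty =>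
    intro _ w _
    refine ⟨fun _ => univ, by simp, ?_⟩
    simp
  | insert i₀ K hi₀ ih =>
    intro hF w hw
    obtain ⟨R, hR, h⟩ := ih (fun i hi => hF i (mem_insert_of_mem hi)) (fun b => w b * fac (A i₀) (F i₀) (b i₀))
      (fun b hbJ => mul_nonneg (hw b hbJ) (fac_nonneg _ _ _))
    obtain ⟨R₀, hR₀, h₀⟩ := step hn (A i₀) (F i₀) (hF i₀ (mem_insert_self i₀ K))
      (J.filter (fun b => ∀ i ∈ K, Odd (R i ∩ b i).card)) (fun b => b i₀) (fun b hbJ => hb b (mem_filter.1 hbJ).1 i₀)
      w (fun b hbJ => hw b (mem_filter.1 hbJ).1)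
    refine ⟨Function.update R i₀ R₀, ?_, ?_⟩
    · intro i hi
      rcases mem_insert.1 hi with h1 | h1
      · rw [h1, Function.update_self]
        exact hR₀
      · have hne : i ≠ i₀ := by
          rintro rfl
          exact hi₀ h1
        rw [Function.update_of_ne hne]
        exact hR i h1
    · have e1 : (J.filter (fun b => ∀ i ∈ insert i₀ K, Odd (Function.update R i₀ R₀ i ∩ b i).card)) =
          (J.filter (fun b => ∀ i ∈ K, Odd (R i ∩ b i).card)).filter (fun b => Odd (R₀ ∩ b i₀).card) := by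
        rw [Finset.filter_filter]
        apply Finset.filter_congr
        intro b _
        rw [Finset.forall_mem_insert, Function.update_self]
        have e2 : (∀ i ∈ K, Odd (Function.update R i₀ R₀ i ∩ b i).card) ↔ ∀ i ∈ K, Odd (R i ∩ b i).card := by
          constructor
          · intro h1 i hi
            have hne : i ≠ i₀ := by
              rintro rfl
              exact hi₀ hi
            have h3 := h1 i hi
            rw [Function.update_of_ne hne] at h3
            exact h3
          · intro h1 i hi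
            have hne : i ≠ i₀ := by
              rintro rfl
              exact hi₀ hi
            rw [Function.update_of_ne hne]
            exact h1 i hi
        rw [e2]
        exact and_comm
      rw [e1]
      refine h₀.trans (h.trans (le_of_eq ?_))
      apply Finset.sum_congr rfl
      intro b _
      rw [Finset.prod_insert hi₀]
      ring

/-- the inequality for partitions -/
theorem trace_ineq (hn : Odd n) (P : Finset (Box n d)) (hP : IsOddProperPartition P) (K : Finset (Fin d))
    (A : Fin d → Finset (Fin n)) (F : Fin d → Finset (Finset (Fin n))) (hF : ∀ i ∈ K, ∀ T ∈ F i, T ⊂ A i) :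
    (2 : ℝ) ^ (d - K.card + 1) - 1 ≤ ∑ b ∈ P, ∏ i ∈ K, fac (A i) (F i) (b i) := by
  have hcnt : ∀ x : Fin d → Fin n, Odd (cnt P (fun b => b) x) := by
    intro x
    obtain ⟨b, hb, huniq⟩ := hP.2 x
    have h1 : cnt P (fun b => b) x = 1 := by
      unfold cnt
      rw [Finset.card_eq_one]
      refine ⟨b, ?_⟩
      ext c
      rw [mem_filter, mem_singleton]
      constructor
      · intro hc
        exact huniq c hc
      · rintro rfl
        exact hb
    rw [h1]
    exact odd_one
  obtain ⟨R, hR, h⟩ := steps hn A F P (fun b hb i => (hP.1 b hb i).1) K hF (fun _ => 1) (fun _ _ => zero_le_one)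
  have h1 := many hn P hP.1 hcnt K R hR
  rw [Finset.sum_const, nsmul_eq_mul, mul_one] at h
  simp_rw [one_mul] at h
  have h2 : ((2 ^ (d - K.card + 1) : ℕ) : ℝ) ≤
      (((P.filter (fun b => ∀ i ∈ K, Odd (R i ∩ b i).card)).card + 1 : ℕ) : ℝ) := by exact_mod_cast h1
  rw [Nat.cast_pow, Nat.cast_add, Nat.cast_one] at h2
  push_cast at h2
  linarith

/-- the number of boxes -/
theorem trace_card (hn : Odd n) (P : Finset (Box n d)) (hP : IsOddProperPartition P) (K : Finset (Fin d))
    (A : Fin d → Finset (Fin n)) (F : Fin d → Finset (Finset (Fin n))) (hF : ∀ i ∈ K, ∀ T ∈ F i, T ⊂ A i)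
    (r m : ℕ) (hr : 2 ≤ r) (hFr : ∀ i ∈ K, (F i).card ≤ r)
    (hm : ∀ b ∈ P, (K.filter (fun i => b i ∩ A i ∉ F i)).card ≤ m) :
    (2 + 2 / (r - 1) : ℝ) ^ (K.card - m) * (2 ^ (d - K.card + 1) - 1) ≤ P.card := by
  have h0 := trace_ineq hn P hP K A F hF
  have hr1 : (2 : ℝ) ≤ r := by exact_mod_cast hr
  set p : ℝ := (1 - 1 / r) / 2 with hp
  have hp0 : 0 < p := by
    rw [hp]
    have : 1 / (r : ℝ) < 1 := by
      rw [div_lt_one (by linarith)]
      linarith
    linarith
  have hp1 : p ≤ 1 := by
    rw [hp]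
    have : 0 ≤ 1 / (r : ℝ) := by positivity
    linarith
  have hb : ∀ b ∈ P, ∏ i ∈ K, fac (A i) (F i) (b i) ≤ p ^ (K.card - m) := by
    intro b hbP
    have h1 : ∀ i ∈ K, fac (A i) (F i) (b i) ≤ if b i ∩ A i ∈ F i then p else 1 := by
      intro i hi
      unfold fac
      split_ifs with h
      · rw [hp]
        have h2 : (1 : ℝ) ≤ (F i).card := by
          have : 1 ≤ (F i).card := Finset.card_pos.2 ⟨_, h⟩
          exact_mod_cast this
        have h3 : ((F i).card : ℝ) ≤ r := by exact_mod_cast hFr i hi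
        have h4 : 1 / (r : ℝ) ≤ 1 / (F i).card := one_div_le_one_div_of_le (by linarith) h3
        linarith
      · exact le_rfl
    refine (Finset.prod_le_prod (fun i _ => fac_nonneg _ _ _) h1).trans ?_
    rw [Finset.prod_ite, Finset.prod_const, Finset.prod_const_one, mul_one]
    apply pow_le_pow_of_le_one hp0.le hp1
    have h2 := Finset.card_filter_add_card_filter_not (s := K) (fun i => b i ∩ A i ∈ F i)
    have h3 := hm b hbP
    omega
  have h1 : (2 : ℝ) ^ (d - K.card + 1) - 1 ≤ P.card * p ^ (K.card - m) := by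
    refine h0.trans ((Finset.sum_le_sum hb).trans ?_)
    rw [Finset.sum_const, nsmul_eq_mul]
  have h2 : (2 + 2 / (r - 1) : ℝ) = p⁻¹ := by
    rw [hp]
    have h3 : (r : ℝ) - 1 ≠ 0 := by linarith
    have h4 : (r : ℝ) ≠ 0 := by linarith
    field_simp
    ring
  rw [h2, inv_pow, inv_mul_le_iff₀ (pow_pos hp0 _), mul_comm]
  exact h1

end Pool.Agent.H79.OB
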