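import Mathlib
import Pool.Agent.H79.OB.Master

/-!
Special cases: few different sides; a set that is in no side; interval sides.
-/

set_option autoImplicit false

namespace Pool.Agent.H79.OB

open Finset Pool.Agent.H63.OB

variable {n d : ℕ}

/-- at most `r` different `i`-th sides for `i ∈ K` -/
theorem few_sides (hn : Odd n) (P : Finset (Box n d)) (hP : IsOddProperPartition P) (K : Finset (Fin d))
    (r : ℕ) (hr : 2 ≤ r) (hK : ∀ i ∈ K, (P.image (fun b => b i)).card ≤ r) :
    (2 + 2 / (r - 1) : ℝ) ^ K.card * (2 ^ (d - K.card + 1) - 1) ≤ P.card := by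
  have h := trace_card hn P hP K (fun _ => univ) (fun i => P.image (fun b => b i)) (by
    intro i _ T hT
    obtain ⟨b, hb, rfl⟩ := mem_image.1 hT
    exact Finset.ssubset_univ_iff.2 (hP.1 b hb i).2) r 0 hr hK (by
    intro b hb
    rw [Nat.le_zero, Finset.card_eq_zero, Finset.filter_eq_empty_iff]
    intro i _ h
    apply h
    rw [Finset.inter_univ]
    exact mem_image.2 ⟨b, hb, rfl⟩)
  rw [Nat.sub_zero] at h
  exact h

/-- sets with `s` elements contained in at most `m` sides of each box -/
theorem few_covered (hn : Odd n) (P : Finset (Box n d)) (hP : IsOddProperPartition P) (K : Finset (Fin d))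
    (A : Fin d → Finset (Fin n)) (s m : ℕ) (hs : 2 ≤ s) (hA : ∀ i ∈ K, (A i).card = s)
    (hm : ∀ b ∈ P, (K.filter (fun i => A i ⊆ b i)).card ≤ m) :
    (2 + 2 / (2 ^ s - 2) : ℝ) ^ (K.card - m) * (2 ^ (d - K.card + 1) - 1) ≤ P.card := by
  have h4 : 4 ≤ 2 ^ s := by
    calc 4 = 2 ^ 2 := by norm_num
      _ ≤ 2 ^ s := Nat.pow_le_pow_right (by norm_num) hs
  have h := trace_card hn P hP K A (fun i => (A i).powerset.erase (A i)) (by
    intro i _ T hT
    rw [mem_erase, mem_powerset] at hT
    exact Finset.ssubset_iff_subset_ne.2 ⟨hT.2, hT.1⟩) (2 ^ s - 1) m (by omega) (by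
    intro i hi
    rw [Finset.card_erase_of_mem (Finset.mem_powerset_self _), Finset.card_powerset, hA i hi]) (by
    intro b hb
    refine le_trans (Finset.card_le_card ?_) (hm b hb)
    intro i hi
    rw [mem_filter] at hi ⊢
    refine ⟨hi.1, ?_⟩
    by_contra h5
    apply hi.2
    rw [mem_erase, mem_powerset]
    refine ⟨fun h6 => h5 ?_, Finset.inter_subset_right⟩
    rw [← h6]
    exact Finset.inter_subset_left)
  have h5 : (((2 ^ s - 1 : ℕ)) : ℝ) = 2 ^ s - 1 := by
    rw [Nat.cast_sub (by omega)]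
    push_cast
    ring
  rw [h5] at h
  have h6 : (2 : ℝ) ^ s - 1 - 1 = 2 ^ s - 2 := by ring
  rw [h6] at h
  exact h

/-- boxes with at most `m` sides that are not intervals -/
theorem interval_lower (hn : Odd n) (hn3 : 3 ≤ n) (P : Finset (Box n d)) (hP : IsOddProperPartition P) (m : ℕ)
    (hm : ∀ b ∈ P, (univ.filter (fun i => ¬ ∃ u v, b i = Finset.Icc u v)).card ≤ m) :
    3 ^ (d - m) ≤ P.card := by
  let a : Fin n := ⟨0, by omega⟩
  let z : Fin n := ⟨n - 1, by omega⟩
  have haz : a ≠ z := by
    intro h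
    have h1 : (0 : ℕ) = n - 1 := congrArg Fin.val h
    omega
  have h := few_covered hn P hP univ (fun _ => {a, z}) 2 m le_rfl (fun _ _ => Finset.card_pair haz) (by
    intro b hb
    refine le_trans (Finset.card_le_card ?_) (hm b hb)
    intro i hi
    rw [mem_filter] at hi ⊢
    refine ⟨mem_univ _, ?_⟩
    rintro ⟨u, v, huv⟩
    have h1 := (hP.1 b hb i).2
    apply h1
    have h2 : a ∈ b i := hi.2 (by simp)
    have h3 : z ∈ b i := hi.2 (by simp)
    rw [huv, Finset.mem_Icc] at h2 h3
    rw [huv, Finset.eq_univ_iff_forall]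
    intro w
    rw [Finset.mem_Icc]
    constructor
    · exact h2.1.trans (Fin.le_def.2 (Nat.zero_le _))
    · refine le_trans (Fin.le_def.2 ?_) h3.2
      show w.1 ≤ n - 1
      have := w.2
      omega)
  rw [Finset.card_univ, Fintype.card_fin, Nat.sub_self] at h
  norm_num at h
  exact_mod_cast h

/-- a partition into `3^d` boxes with interval sides -/
theorem interval_upper (hn : Odd n) (hn3 : 3 ≤ n) (d : ℕ) : ∃ P : Finset (Box n d), IsOddProperPartition P ∧
    (∀ b ∈ P, ∀ i, ∃ u v, b i = Finset.Icc u v) ∧ P.card = 3 ^ d := by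
  let a : Fin n := ⟨0, by omega⟩
  let z : Fin n := ⟨n - 1, by omega⟩
  let p : Fin n := ⟨1, by omega⟩
  let q : Fin n := ⟨n - 2, by omega⟩
  have mL : ∀ y : Fin n, y ∈ Finset.Icc a a ↔ y.1 = 0 := by
    intro y
    rw [Finset.mem_Icc, Fin.le_def, Fin.le_def]
    show 0 ≤ y.1 ∧ y.1 ≤ 0 ↔ y.1 = 0
    omega
  have mM : ∀ y : Fin n, y ∈ Finset.Icc p q ↔ 1 ≤ y.1 ∧ y.1 ≤ n - 2 := by
    intro y
    rw [Finset.mem_Icc, Fin.le_def, Fin.le_def]
  have mR : ∀ y : Fin n, y ∈ Finset.Icc z z ↔ y.1 = n - 1 := by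
    intro y
    rw [Finset.mem_Icc, Fin.le_def, Fin.le_def]
    show n - 1 ≤ y.1 ∧ y.1 ≤ n - 1 ↔ y.1 = n - 1
    omega
  have ne1 : Finset.Icc a a ≠ Finset.Icc p q := by
    intro h
    have h1 : a ∈ Finset.Icc p q := by
      rw [← h, mL]
    rw [mM] at h1
    exact absurd h1.1 (by show ¬ (1 ≤ 0); omega)
  have ne2 : Finset.Icc a a ≠ Finset.Icc z z := by
    intro h
    have h1 : a ∈ Finset.Icc z z := by
      rw [← h, mL]
    rw [mR] at h1
    have h2 : (0 : ℕ) = n - 1 := h1
    omega
  have ne3 : Finset.Icc p q ≠ Finset.Icc z z := by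
    intro h
    have h1 : z ∈ Finset.Icc p q := by
      rw [h, mR]
    rw [mM] at h1
    have h2 : n - 1 ≤ n - 2 := h1.2
    omega
  let s : Finset (Finset (Fin n)) := {Finset.Icc a a, Finset.Icc p q, Finset.Icc z z}
  have hs : ∀ S ∈ s, S = Finset.Icc a a ∨ S = Finset.Icc p q ∨ S = Finset.Icc z z := by
    intro S hS
    simpa only [s, mem_insert, mem_singleton] using hS
  have hs1 : Finset.Icc a a ∈ s := by simp only [s, mem_insert, true_or]
  have hs2 : Finset.Icc p q ∈ s := by simp only [s, mem_insert, true_or, or_true]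
  have hs3 : Finset.Icc z z ∈ s := by simp only [s, mem_insert, mem_singleton, or_true]
  have hcov : ∀ y : Fin n, ∃ S, S ∈ s ∧ y ∈ S ∧ ∀ T ∈ s, y ∈ T → T = S := by
    intro y
    have hy := y.2
    by_cases h1 : y.1 = 0
    · refine ⟨_, hs1, (mL y).2 h1, ?_⟩
      intro T hT hyT
      rcases hs T hT with rfl | rfl | rfl
      · rfl
      · rw [mM] at hyT
        omega
      · rw [mR] at hyT
        omega
    · by_cases h2 : y.1 = n - 1
      · refine ⟨_, hs3, (mR y).2 h2, ?_⟩
        intro T hT hyT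
        rcases hs T hT with rfl | rfl | rfl
        · rw [mL] at hyT
          omega
        · rw [mM] at hyT
          omega
        · rfl
      · refine ⟨_, hs2, (mM y).2 (by omega), ?_⟩
        intro T hT hyT
        rcases hs T hT with rfl | rfl | rfl
        · rw [mL] at hyT
          omega
        · rfl
        · rw [mR] at hyT
          omega
  choose f hf1 hf2 hf3 using hcov
  refine ⟨Fintype.piFinset (fun _ => s), ⟨?_, ?_⟩, ?_, ?_⟩
  · intro b hb i
    rw [Fintype.mem_piFinset] at hb
    rcases hs (b i) (hb i) with h | h | h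
    · rw [h]
      refine ⟨by rw [Finset.Icc_self, Finset.card_singleton]; exact odd_one, ?_⟩
      intro h2
      have h3 : z ∈ Finset.Icc a a := by
        rw [h2]
        exact mem_univ _
      rw [mL] at h3
      have h4 : n - 1 = 0 := h3
      omega
    · rw [h]
      constructor
      · rw [Fin.card_Icc]
        show Odd (n - 2 + 1 - 1)
        obtain ⟨k, hk⟩ := hn
        exact ⟨k - 1, by omega⟩
      · intro h2
        have h3 : a ∈ Finset.Icc p q := by
          rw [h2]
          exact mem_univ _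
        rw [mM] at h3
        exact absurd h3.1 (by show ¬ (1 ≤ 0); omega)
    · rw [h]
      refine ⟨by rw [Finset.Icc_self, Finset.card_singleton]; exact odd_one, ?_⟩
      intro h2
      have h3 : a ∈ Finset.Icc z z := by
        rw [h2]
        exact mem_univ _
      rw [mR] at h3
      have h4 : 0 = n - 1 := h3
      omega
  · intro x
    refine ⟨fun i => f (x i), ⟨?_, fun i => hf2 (x i)⟩, ?_⟩
    · rw [Fintype.mem_piFinset]
      intro i
      exact hf1 (x i)
    · rintro c ⟨hc, hxc⟩
      rw [Fintype.mem_piFinset] at hc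
      funext i
      exact hf3 (x i) (c i) (hc i) (hxc i)
  · intro b hb i
    rw [Fintype.mem_piFinset] at hb
    rcases hs (b i) (hb i) with h | h | h
    · exact ⟨a, a, h⟩
    · exact ⟨p, q, h⟩
    · exact ⟨z, z, h⟩
  · have hcard : s.card = 3 := by
      show ({Finset.Icc a a, Finset.Icc p q, Finset.Icc z z} : Finset (Finset (Fin n))).card = 3
      rw [Finset.card_insert_of_notMem, Finset.card_insert_of_notMem, Finset.card_singleton]
      · rw [mem_singleton]
        exact ne3
      · rw [mem_insert, mem_singleton, not_or]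
        exact ⟨ne1, ne2⟩
    rw [Fintype.card_piFinset_const, hcard]

end Pool.Agent.H79.OB
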