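import Mathlib

/-!
A family of sets in which every member belongs to a partition of the ground set into at least three members of the
family, and in which every two points lie in a common member, has at least nine members.
-/

set_option autoImplicit false

namespace Pool.Agent.H79.OB

open Finset

/-- a partition of the ground set into members of `F`, one of them `S`, at least three parts: `T y` is the part of `y` -/
def InPart {α : Type*} [DecidableEq α] (F : Finset (Finset α)) (S : Finset α) : Prop :=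
  ∃ T : α → Finset α, (∀ y, T y ∈ F) ∧ (∀ y, y ∈ T y) ∧ (∀ y z, z ∈ T y → T z = T y) ∧ (∀ y ∈ S, T y = S) ∧
    ∃ y w, y ∉ S ∧ w ∉ S ∧ w ∉ T y

/-- what is used of a partition -/
private theorem part_facts {α : Type*} [DecidableEq α] {F : Finset (Finset α)} {S : Finset α} (h : InPart F S) :
    ∃ T : α → Finset α, (∀ y, T y ∈ F) ∧ (∀ y, y ∈ T y) ∧ (∀ y z, z ∈ T y → T z = T y) ∧
      (∀ y, y ∉ S → ∀ z ∈ T y, z ∉ S) ∧ (∀ y w, w ∉ T y → ∀ z ∈ T w, z ∉ T y) ∧
      ∃ y w, y ∉ S ∧ w ∉ S ∧ w ∉ T y := by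
  obtain ⟨T, h1, h2, h3, h4, h5⟩ := h
  refine ⟨T, h1, h2, h3, ?_, ?_, h5⟩
  · intro y hy z hz hzS
    have e1 := h3 y z hz
    rw [h4 z hzS] at e1
    exact hy (e1 ▸ h2 y)
  · intro y w hw z hz hz2
    have e1 := h3 y z hz2
    have e2 := h3 w z hz
    rw [e1] at e2
    exact hw (e2 ▸ h2 w)

/-- a third part, disjoint from `S` and from the part `E` of `x` -/
private theorem third {α : Type*} [DecidableEq α] {F : Finset (Finset α)} {S : Finset α} (h : InPart F S) {x : α}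
    (hx : x ∉ S) : ∃ E ∈ F, ∃ R ∈ F, ∃ z, x ∈ E ∧ z ∈ R ∧ z ∉ S ∧ z ∉ E ∧ (∀ y ∈ E, y ∉ S) ∧ (∀ y ∈ R, y ∉ S) ∧
      (∀ y ∈ R, y ∉ E) := by
  obtain ⟨T, h1, h2, h3, h4, h5, y, w, hy, hw, hyw⟩ := part_facts h
  have hz : ∃ z, z ∉ S ∧ z ∉ T x := by
    by_cases h6 : y ∈ T x
    · refine ⟨w, hw, ?_⟩
      rw [← h3 x y h6]
      exact hyw
    · exact ⟨y, hy, h6⟩
  obtain ⟨z, hz1, hz2⟩ := hz
  exact ⟨T x, h1 x, T z, h1 z, z, h2 x, h2 z, hz1, hz2, h4 x hx, h4 z hz1, h5 x z hz2⟩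

theorem nine {α : Type*} [DecidableEq α] (F : Finset (Finset α)) (hF0 : F.Nonempty)
    (hne : ∀ S ∈ F, S.Nonempty) (hpart : ∀ S ∈ F, InPart F S)
    (hcov : ∀ a b : α, ∃ S ∈ F, a ∈ S ∧ b ∈ S) : 9 ≤ F.card := by
  classical
  obtain ⟨N, hN, hmax⟩ := Finset.exists_max_image F Finset.card hF0
  have hNC : ∀ C ∈ F, N ⊆ C → C = N := fun C hC h => (Finset.eq_of_subset_of_card_le h (hmax C hC)).symm
  obtain ⟨a₀, ha₀⟩ := hne N hN
  obtain ⟨T₀, k1, k2, k3, k4, k5, p, q, hp, hq, hpq⟩ := part_facts (hpart N hN)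
  have hP := k4 p hp
  have hQ := k4 q hq
  have hPQ := k5 p q hpq
  set H := F.filter (fun S => ∀ z ∈ S, z ∉ N) with hHd
  set G := F.filter (fun S => S ≠ N ∧ ∃ z ∈ S, z ∈ N) with hGd
  have mH : ∀ S, S ∈ H ↔ S ∈ F ∧ ∀ z ∈ S, z ∉ N := fun S => mem_filter
  have mG : ∀ S, S ∈ G ↔ S ∈ F ∧ S ≠ N ∧ ∃ z ∈ S, z ∈ N := fun S => mem_filter
  have hPH : T₀ p ∈ H := (mH _).2 ⟨k1 p, hP⟩
  have hQH : T₀ q ∈ H := (mH _).2 ⟨k1 q, hQ⟩
  have hPQne : T₀ p ≠ T₀ q := fun h => hpq (h ▸ k2 q)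
  have hGN : ∀ C ∈ G, ¬ N ⊆ C := fun C hC h => ((mG C).1 hC).2.1 (hNC C ((mG C).1 hC).1 h)
  have hstar : ∀ z, z ∉ N → ∀ a ∈ N, ∃ C ∈ G, z ∈ C ∧ a ∈ C := by
    intro z hz a ha
    obtain ⟨S, hS, h1, h2⟩ := hcov a z
    refine ⟨S, (mG S).2 ⟨hS, ?_, a, h1, ha⟩, h2, h1⟩
    rintro rfl
    exact hz h2
  have huniq : ∀ z, z ∉ N → ¬ ∀ S ∈ G, ∀ S' ∈ G, z ∈ S → z ∈ S' → S = S' := by
    intro z hz h
    obtain ⟨C, hC, hzC, _⟩ := hstar z hz a₀ ha₀
    apply hGN C hC
    intro a ha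
    obtain ⟨D, hD, hzD, haD⟩ := hstar z hz a ha
    rw [h C hC D hD hzC hzD]
    exact haD
  -- the count
  have hcount : 1 + H.card + G.card ≤ F.card := by
    have d1 : Disjoint H G := by
      rw [Finset.disjoint_left]
      intro S hS hS2
      obtain ⟨z, hz, hz2⟩ := ((mG S).1 hS2).2.2
      exact ((mH S).1 hS).2 z hz hz2
    have d2 : N ∉ H ∪ G := by
      rw [mem_union, not_or]
      exact ⟨fun h => ((mH N).1 h).2 a₀ ha₀ ha₀, fun h => ((mG N).1 h).2.1 rfl⟩
    have h1 : insert N (H ∪ G) ⊆ F := by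
      intro S hS
      rcases mem_insert.1 hS with h | h
      · rw [h]
        exact hN
      · rcases mem_union.1 h with h | h
        · exact ((mH S).1 h).1
        · exact ((mG S).1 h).1
    have h2 := Finset.card_le_card h1
    rw [Finset.card_insert_of_notMem d2, Finset.card_union_of_disjoint d1] at h2
    omega
  have hH2 : 2 ≤ H.card := by
    have h1 : ({T₀ p, T₀ q} : Finset (Finset α)) ⊆ H := by
      intro S hS
      rcases mem_insert.1 hS with h | h
      · rw [h]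
        exact hPH
      · rw [mem_singleton.1 h]
        exact hQH
    have h2 := Finset.card_le_card h1
    rw [Finset.card_pair hPQne] at h2
    exact h2
  -- minimal cover of `N` by members containing `p`
  set Gp := G.filter (fun C => p ∈ C) with hGpd
  set G' := G.filter (fun C => p ∉ C) with hG'd
  have hGG : Gp.card + G'.card = G.card := Finset.card_filter_add_card_filter_not _
  obtain ⟨𝒞, h𝒞, hmin⟩ := Finset.exists_min_image (Gp.powerset.filter (fun 𝒟 => ∀ a ∈ N, ∃ C ∈ 𝒟, a ∈ C)) Finset.card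
    ⟨Gp, mem_filter.2 ⟨Finset.mem_powerset_self _, by
      intro a ha
      obtain ⟨C, hC, h1, h2⟩ := hstar p hp a ha
      exact ⟨C, mem_filter.2 ⟨hC, h1⟩, h2⟩⟩⟩
  rw [mem_filter, mem_powerset] at h𝒞
  obtain ⟨h𝒞G, h𝒞c⟩ := h𝒞
  have hCp : ∀ C ∈ 𝒞, C ∈ G ∧ p ∈ C := fun C hC => mem_filter.1 (h𝒞G hC)
  have hpriv : ∀ C ∈ 𝒞, ∃ x ∈ N, x ∈ C ∧ ∀ D ∈ 𝒞, D ≠ C → x ∉ D := by
    intro C hC
    have h1 : ¬ ∀ a ∈ N, ∃ D ∈ 𝒞.erase C, a ∈ D := by
      intro h
      have h2 := hmin (𝒞.erase C) (mem_filter.2 ⟨mem_powerset.2 ((Finset.erase_subset _ _).trans h𝒞G), h⟩)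
      exact absurd h2 (not_le.2 (Finset.card_erase_lt_of_mem hC))
    push Not at h1
    obtain ⟨x, hx, h2⟩ := h1
    obtain ⟨D, hD, hxD⟩ := h𝒞c x hx
    have h3 : D = C := by
      by_contra h4
      exact h2 D (mem_erase.2 ⟨h4, hD⟩) hxD
    exact ⟨x, hx, h3 ▸ hxD, fun D' hD' h4 => h2 D' (mem_erase.2 ⟨h4, hD'⟩)⟩
  have h𝒞2 : 1 < 𝒞.card := by
    obtain ⟨C, hC, _⟩ := h𝒞c a₀ ha₀
    by_contra h
    have h1 : 𝒞.card ≤ 1 := not_lt.1 h
    apply hGN C (hCp C hC).1
    intro a ha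
    obtain ⟨D, hD, haD⟩ := h𝒞c a ha
    rw [Finset.card_le_one.1 h1 C hC D hD]
    exact haD
  -- a set of `G'` separating two private points
  have hsep : ∀ C ∈ 𝒞, ∀ x ∈ N, x ∉ C → ∃ E ∈ G', x ∈ E ∧ (∀ y ∈ E, y ∉ C) ∧
      ∃ R ∈ F, ∃ z, z ∈ R ∧ z ∉ C ∧ z ∉ E ∧ (∀ y ∈ R, y ∉ C) ∧ (∀ y ∈ R, y ∉ E) := by
    intro C hC x hxN hx
    obtain ⟨E, hE, R, hR, z, e1, e2, e3, e4, e5, e6, e7⟩ := third (hpart C ((mG C).1 (hCp C hC).1).1) hx
    have hpE : p ∉ E := fun h => e5 p h (hCp C hC).2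
    refine ⟨E, mem_filter.2 ⟨(mG E).2 ⟨hE, ?_, x, e1, hxN⟩, hpE⟩, e1, e5, R, hR, z, e2, e3, e4, e6, e7⟩
    intro h
    obtain ⟨x', hx'N, hx'C, _⟩ := hpriv C hC
    exact e5 x' (h ▸ hx'N) hx'C
  by_cases h3 : 2 < 𝒞.card
  · -- at least three members
    obtain ⟨C₁, m1, C₂, m2, C₃, m3, n12, n13, n23⟩ := Finset.two_lt_card.1 h3
    obtain ⟨x₁, x1N, x1C, x1u⟩ := hpriv C₁ m1
    obtain ⟨x₂, x2N, x2C, x2u⟩ := hpriv C₂ m2
    obtain ⟨x₃, x3N, x3C, x3u⟩ := hpriv C₃ m3
    have hGp3 : 3 ≤ Gp.card := (Nat.succ_le_of_lt h3).trans (Finset.card_le_card h𝒞G)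
    obtain ⟨A, hA, a1, a2, _⟩ := hsep C₂ m2 x₁ x1N (x1u C₂ m2 n12.symm)
    obtain ⟨B, hB, b1, b2, _⟩ := hsep C₁ m1 x₂ x2N (x2u C₁ m1 n12)
    have hx2A : x₂ ∉ A := fun h => a2 x₂ h x2C
    have hx1B : x₁ ∉ B := fun h => b2 x₁ h x1C
    have hD : ∃ D ∈ G', D ≠ A ∧ D ≠ B := by
      by_cases c1 : x₃ ∈ A
      · obtain ⟨D, hD, d1, d2, _⟩ := hsep C₃ m3 x₁ x1N (x1u C₃ m3 n13.symm)
        refine ⟨D, hD, ?_, ?_⟩
        · rintro rfl
          exact d2 x₃ c1 x3C
        · rintro rfl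
          exact hx1B d1
      · by_cases c2 : x₃ ∈ B
        · obtain ⟨D, hD, d1, d2, _⟩ := hsep C₃ m3 x₂ x2N (x2u C₃ m3 n23.symm)
          refine ⟨D, hD, ?_, ?_⟩
          · rintro rfl
            exact hx2A d1
          · rintro rfl
            exact d2 x₃ c2 x3C
        · obtain ⟨D, hD, d1, d2, _⟩ := hsep C₁ m1 x₃ x3N (x3u C₁ m1 n13)
          refine ⟨D, hD, ?_, ?_⟩
          · rintro rfl
            exact c1 d1
          · rintro rfl
            exact c2 d1
    obtain ⟨D, hD, hDA, hDB⟩ := hD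
    have hAB : A ≠ B := by
      rintro rfl
      exact hx1B a1
    have hG'3 : 3 ≤ G'.card := by
      have h1 : ({A, B, D} : Finset (Finset α)) ⊆ G' := by
        intro S hS
        simp only [mem_insert, mem_singleton] at hS
        rcases hS with h | h | h <;> rw [h] <;> assumption
      have h2 := Finset.card_le_card h1
      rw [Finset.card_eq_three.2 ⟨A, B, D, hAB, hDA.symm, hDB.symm, rfl⟩] at h2
      exact h2
    omega
  · -- two members
    have h2 : 𝒞.card = 2 := by omega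
    obtain ⟨C₁, C₂, n12, h𝒞e⟩ := Finset.card_eq_two.1 h2
    have m1 : C₁ ∈ 𝒞 := by rw [h𝒞e]; exact mem_insert_self _ _
    have m2 : C₂ ∈ 𝒞 := by rw [h𝒞e]; exact mem_insert_of_mem (mem_singleton_self _)
    have hcover : ∀ a ∈ N, a ∈ C₁ ∨ a ∈ C₂ := by
      intro a ha
      obtain ⟨D, hD, haD⟩ := h𝒞c a ha
      rw [h𝒞e, mem_insert, mem_singleton] at hD
      rcases hD with h | h
      · exact Or.inl (h ▸ haD)
      · exact Or.inr (h ▸ haD)
    obtain ⟨x₁, x1N, x1C, x1u⟩ := hpriv C₁ m1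
    obtain ⟨x₂, x2N, x2C, x2u⟩ := hpriv C₂ m2
    have hx12 : x₁ ∉ C₂ := x1u C₂ m2 n12.symm
    have hx21 : x₂ ∉ C₁ := x2u C₁ m1 n12
    obtain ⟨E, hE, e1, e2, R, hR, z, r1, r2, r3, r4, r5⟩ := hsep C₁ m1 x₂ x2N hx21
    obtain ⟨E', hE', f1, f2, R', hR', z', s1, s2, s3, s4, s5⟩ := hsep C₂ m2 x₁ x1N hx12
    obtain ⟨g1, p1⟩ := hCp C₁ m1
    obtain ⟨g2, p2⟩ := hCp C₂ m2
    obtain ⟨gE, pE⟩ := mem_filter.1 hE
    obtain ⟨gE', pE'⟩ := mem_filter.1 hE'
    have nEE : E ≠ E' := by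
      rintro rfl
      exact e2 x₁ f1 x1C
    have n1E : C₁ ≠ E := by
      rintro rfl
      exact pE p1
    have n1E' : C₁ ≠ E' := by
      rintro rfl
      exact pE' p1
    have n2E : C₂ ≠ E := by
      rintro rfl
      exact pE p2
    have n2E' : C₂ ≠ E' := by
      rintro rfl
      exact pE' p2
    -- `R` is new
    have hRN : R ≠ N := by
      rintro rfl
      exact r4 x₁ x1N x1C
    have hR'N : R' ≠ N := by
      rintro rfl
      exact s4 x₂ x2N x2C
    have hR1 : R ≠ C₁ ∧ R ≠ C₂ ∧ R ≠ E ∧ R ≠ E' := by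
      refine ⟨?_, ?_, ?_, ?_⟩
      · rintro rfl
        exact r2 r1
      · rintro rfl
        exact r4 p p2 p1
      · rintro rfl
        exact r3 r1
      · rintro rfl
        exact r4 x₁ f1 x1C
    have hR'1 : R' ≠ C₁ ∧ R' ≠ C₂ ∧ R' ≠ E ∧ R' ≠ E' := by
      refine ⟨?_, ?_, ?_, ?_⟩
      · rintro rfl
        exact s4 p p1 p2
      · rintro rfl
        exact s2 s1
      · rintro rfl
        exact s4 x₂ e1 x2C
      · rintro rfl
        exact s3 s1
    have hZ : ∃ Z ∈ G, Z ≠ C₁ ∧ Z ≠ C₂ ∧ Z ≠ E ∧ Z ≠ E' := by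
      by_contra hcon
      push Not at hcon
      have hall : ∀ S ∈ G, S = C₁ ∨ S = C₂ ∨ S = E ∨ S = E' := by
        intro S hS
        by_contra h5
        push Not at h5
        exact h5.2.2.2 (hcon S hS h5.1 h5.2.1 h5.2.2.1)
      have hzN : z ∉ N := by
        intro h
        have h5 : R ∈ G := (mG R).2 ⟨hR, hRN, z, r1, h⟩
        rcases hall R h5 with h6 | h6 | h6 | h6
        · exact hR1.1 h6
        · exact hR1.2.1 h6
        · exact hR1.2.2.1 h6
        · exact hR1.2.2.2 h6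
      apply huniq z hzN
      have hz2 : ∀ S ∈ G, z ∈ S → S = C₂ ∨ S = E' := by
        intro S hS hzS
        rcases hall S hS with h6 | h6 | h6 | h6
        · rw [h6] at hzS
          exact absurd hzS r2
        · exact Or.inl h6
        · rw [h6] at hzS
          exact absurd hzS r3
        · exact Or.inr h6
      intro S hS S' hS' h5 h6
      rcases hz2 S hS h5 with h7 | h7 <;> rcases hz2 S' hS' h6 with h8 | h8
      · rw [h7, h8]
      · rw [h7] at h5
        rw [h8] at h6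
        exact absurd h5 (f2 z h6)
      · rw [h7] at h5
        rw [h8] at h6
        exact absurd h6 (f2 z h5)
      · rw [h7, h8]
    obtain ⟨Z, gZ, z1, z2, z3, z4⟩ := hZ
    have h5sub : ({C₁, C₂, E, E', Z} : Finset (Finset α)) ⊆ G := by
      intro S hS
      simp only [mem_insert, mem_singleton] at hS
      rcases hS with h | h | h | h | h <;> rw [h] <;> assumption
    have h5card : ({C₁, C₂, E, E', Z} : Finset (Finset α)).card = 5 := by
      rw [Finset.card_insert_of_notMem, Finset.card_insert_of_notMem, Finset.card_insert_of_notMem,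
        Finset.card_pair z4.symm]
      · simp only [mem_insert, mem_singleton, not_or]
        exact ⟨nEE, z3.symm⟩
      · simp only [mem_insert, mem_singleton, not_or]
        exact ⟨n2E, n2E', z2.symm⟩
      · simp only [mem_insert, mem_singleton, not_or]
        exact ⟨n12, n1E, n1E', z1.symm⟩
    have hG5 : 5 ≤ G.card := h5card ▸ Finset.card_le_card h5sub
    by_contra hlt
    have hGe : G.card = 5 := by omega
    have hHe : H.card = 2 := by omega
    have hall : ∀ S ∈ G, S = C₁ ∨ S = C₂ ∨ S = E ∨ S = E' ∨ S = Z := by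
      intro S hS
      have h6 := Finset.eq_of_subset_of_card_le h5sub (by rw [h5card, hGe])
      rw [← h6] at hS
      simpa only [mem_insert, mem_singleton] using hS
    have hallH : ∀ S ∈ H, S = T₀ p ∨ S = T₀ q := by
      intro S hS
      have h6 : ({T₀ p, T₀ q} : Finset (Finset α)) = H := by
        apply Finset.eq_of_subset_of_card_le
        · intro S' hS'
          rcases mem_insert.1 hS' with h | h
          · rw [h]
            exact hPH
          · rw [mem_singleton.1 h]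
            exact hQH
        · rw [hHe, Finset.card_pair hPQne]
      rw [← h6] at hS
      simpa only [mem_insert, mem_singleton] using hS
    have hRQ : R = T₀ q ∨ R = Z := by
      by_cases h6 : ∃ y ∈ R, y ∈ N
      · right
        rcases hall R ((mG R).2 ⟨hR, hRN, h6⟩) with h7 | h7 | h7 | h7 | h7
        · exact absurd h7 hR1.1
        · exact absurd h7 hR1.2.1
        · exact absurd h7 hR1.2.2.1
        · exact absurd h7 hR1.2.2.2
        · exact h7
      · left
        push Not at h6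
        rcases hallH R ((mH R).2 ⟨hR, h6⟩) with h7 | h7
        · exfalso
          exact r4 p (h7 ▸ k2 p) p1
        · exact h7
    have hR'Q : R' = T₀ q ∨ R' = Z := by
      by_cases h6 : ∃ y ∈ R', y ∈ N
      · right
        rcases hall R' ((mG R').2 ⟨hR', hR'N, h6⟩) with h7 | h7 | h7 | h7 | h7
        · exact absurd h7 hR'1.1
        · exact absurd h7 hR'1.2.1
        · exact absurd h7 hR'1.2.2.1
        · exact absurd h7 hR'1.2.2.2
        · exact h7
      · left
        push Not at h6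
        rcases hallH R' ((mH R').2 ⟨hR', h6⟩) with h7 | h7
        · exfalso
          exact s4 p (h7 ▸ k2 p) p2
        · exact h7
    have hqq := k2 q
    rcases hRQ with h6 | h6 <;> rcases hR'Q with h7 | h7
    · -- only `Z` can contain `q`
      apply huniq q hq
      have hz2 : ∀ S ∈ G, q ∈ S → S = Z := by
        intro S hS hqS
        rcases hall S hS with h8 | h8 | h8 | h8 | h8
        · rw [h8] at hqS
          exact absurd hqS (r4 q (h6 ▸ hqq))
        · rw [h8] at hqS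
          exact absurd hqS (s4 q (h7 ▸ hqq))
        · rw [h8] at hqS
          exact absurd hqS (r5 q (h6 ▸ hqq))
        · rw [h8] at hqS
          exact absurd hqS (s5 q (h7 ▸ hqq))
        · exact h8
      intro S hS S' hS' h8 h9
      rw [hz2 S hS h8, hz2 S' hS' h9]
    · -- `q` in `C₂`, `E'` or `Z = R'`, disjoint
      apply huniq q hq
      have hz2 : ∀ S ∈ G, q ∈ S → S = C₂ ∨ S = E' ∨ S = Z := by
        intro S hS hqS
        rcases hall S hS with h8 | h8 | h8 | h8 | h8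
        · rw [h8] at hqS
          exact absurd hqS (r4 q (h6 ▸ hqq))
        · exact Or.inl h8
        · rw [h8] at hqS
          exact absurd hqS (r5 q (h6 ▸ hqq))
        · exact Or.inr (Or.inl h8)
        · exact Or.inr (Or.inr h8)
      rw [h7] at s4 s5
      intro S hS S' hS' h8 h9
      rcases hz2 S hS h8 with h10 | h10 | h10 <;> rcases hz2 S' hS' h9 with h11 | h11 | h11 <;>
        rw [h10] at h8 ⊢ <;> rw [h11] at h9 ⊢
      · exact absurd h8 (f2 q h9)
      · exact absurd h8 (s4 q h9)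
      · exact absurd h9 (f2 q h8)
      · exact absurd h8 (s5 q h9)
      · exact absurd h9 (s4 q h8)
      · exact absurd h9 (s5 q h8)
    · apply huniq q hq
      have hz2 : ∀ S ∈ G, q ∈ S → S = C₁ ∨ S = E ∨ S = Z := by
        intro S hS hqS
        rcases hall S hS with h8 | h8 | h8 | h8 | h8
        · exact Or.inl h8
        · rw [h8] at hqS
          exact absurd hqS (s4 q (h7 ▸ hqq))
        · exact Or.inr (Or.inl h8)
        · rw [h8] at hqS
          exact absurd hqS (s5 q (h7 ▸ hqq))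
        · exact Or.inr (Or.inr h8)
      rw [h6] at r4 r5
      intro S hS S' hS' h8 h9
      rcases hz2 S hS h8 with h10 | h10 | h10 <;> rcases hz2 S' hS' h9 with h11 | h11 | h11 <;>
        rw [h10] at h8 ⊢ <;> rw [h11] at h9 ⊢
      · exact absurd h8 (e2 q h9)
      · exact absurd h8 (r4 q h9)
      · exact absurd h9 (e2 q h8)
      · exact absurd h8 (r5 q h9)
      · exact absurd h9 (r4 q h8)
      · exact absurd h9 (r5 q h8)
    · -- `Z` is disjoint from `C₁ ∪ C₂`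
      rw [h6] at r4
      rw [h7] at s4
      obtain ⟨y, hy, hyN⟩ := ((mG Z).1 gZ).2.2
      rcases hcover y hyN with h8 | h8
      · exact r4 y hy h8
      · exact s4 y hy h8

end Pool.Agent.H79.OB
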