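import Mathlib
import Pool.Agent.H79.OB.Cor
import Pool.Agent.H79.OB.Nine

/-!
At most eight different sides in a coordinate: two elements of `[n]` lie in no common side.
-/

set_option autoImplicit false

namespace Pool.Agent.H79.OB

open Finset Pool.Agent.H63.OB

variable {n d : ℕ}

/-- the sides along a line -/
theorem inPart_of_partition (hn : Odd n) (P : Finset (Box n d)) (hP : IsOddProperPartition P) (i : Fin d)
    (S : Finset (Fin n)) (hS : S ∈ P.image (fun b => b i)) : InPart (P.image (fun b => b i)) S := by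
  obtain ⟨b, hb, rfl⟩ := mem_image.1 hS
  have hne : ∀ j, ∃ x, x ∈ b j := fun j => Finset.card_pos.1 (hP.1 b hb j).1.pos
  choose x hx using hne
  have hex : ∀ y : Fin n, ∃ c ∈ P, ∀ j, Function.update x i y j ∈ c j := by
    intro y
    obtain ⟨c, ⟨hc, h1⟩, -⟩ := hP.2 (Function.update x i y)
    exact ⟨c, hc, h1⟩
  choose c hc hcx using hex
  have hself : ∀ y, y ∈ c y i := by
    intro y
    have h1 := hcx y i
    rw [Function.update_self] at h1
    exact h1
  have hmove : ∀ y z, z ∈ c y i → c z = c y := by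
    intro y z hz
    apply (hP.2 (Function.update x i z)).unique ⟨hc z, hcx z⟩
    refine ⟨hc y, ?_⟩
    intro j
    by_cases hj : j = i
    · subst hj
      rw [Function.update_self]
      exact hz
    · have h1 := hcx y j
      rw [Function.update_of_ne hj] at h1
      rw [Function.update_of_ne hj]
      exact h1
  have hb' : ∀ y ∈ b i, c y = b := by
    intro y hy
    apply (hP.2 (Function.update x i y)).unique ⟨hc y, hcx y⟩
    refine ⟨hb, ?_⟩
    intro j
    by_cases hj : j = i
    · subst hj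
      rw [Function.update_self]
      exact hy
    · rw [Function.update_of_ne hj]
      exact hx j
  have hy : ∃ y, y ∉ b i := by
    by_contra h
    push Not at h
    exact (hP.1 b hb i).2 (Finset.eq_univ_iff_forall.2 h)
  obtain ⟨y, hy⟩ := hy
  have hdisj : Disjoint (b i) (c y i) := by
    rw [Finset.disjoint_left]
    intro z hz hz2
    have h1 := hmove y z hz2
    rw [hb' z hz] at h1
    exact hy (h1 ▸ hself y)
  have hw : ∃ w, w ∉ b i ∪ c y i := by
    by_contra h2
    push Not at h2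
    have h3 := Finset.card_union_of_disjoint hdisj
    rw [Finset.eq_univ_iff_forall.2 h2, Finset.card_univ, Fintype.card_fin] at h3
    obtain ⟨u, hu⟩ := hn
    obtain ⟨v, hv⟩ := (hP.1 b hb i).1
    obtain ⟨v', hv'⟩ := (hP.1 (c y) (hc y) i).1
    omega
  obtain ⟨w, hw⟩ := hw
  rw [mem_union, not_or] at hw
  refine ⟨fun y => c y i, fun y => mem_image.2 ⟨c y, hc y, rfl⟩, hself, ?_, ?_, y, w, hy, hw.1, hw.2⟩
  · intro y z hz
    show c z i = c y i
    rw [hmove y z hz]
  · intro y hy
    show c y i = b i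
    rw [hb' y hy]

/-- at most eight different `i`-th sides: two elements in no common side -/
theorem separated (hn : Odd n) (P : Finset (Box n d)) (hP : IsOddProperPartition P) (i : Fin d)
    (h8 : (P.image (fun b => b i)).card ≤ 8) : ∃ A : Finset (Fin n), A.card = 2 ∧ ∀ b ∈ P, ¬ A ⊆ b i := by
  have hn0 : 0 < n := hn.pos
  have hcovx : ∀ a : Fin n, ∃ b ∈ P, a ∈ b i := by
    intro a
    obtain ⟨b, ⟨hb, h1⟩, -⟩ := hP.2 (fun _ => a)
    exact ⟨b, hb, h1 i⟩
  obtain ⟨b₀, hb₀, _⟩ := hcovx ⟨0, hn0⟩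
  have hnot : ¬ ∀ a b : Fin n, ∃ S ∈ P.image (fun b => b i), a ∈ S ∧ b ∈ S := by
    intro h
    have h1 := nine (P.image (fun b => b i)) ⟨b₀ i, mem_image.2 ⟨b₀, hb₀, rfl⟩⟩ (by
      intro S hS
      obtain ⟨b, hb, rfl⟩ := mem_image.1 hS
      exact Finset.card_pos.1 (hP.1 b hb i).1.pos) (inPart_of_partition hn P hP i) h
    omega
  push Not at hnot
  obtain ⟨a, a', h⟩ := hnot
  refine ⟨{a, a'}, ?_, ?_⟩
  · apply Finset.card_pair
    rintro rfl
    obtain ⟨b, hb, hab⟩ := hcovx a
    exact h (b i) (mem_image.2 ⟨b, hb, rfl⟩) hab hab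
  · intro b hb hsub
    exact h (b i) (mem_image.2 ⟨b, hb, rfl⟩) (hsub (by simp)) (hsub (by simp))

/-- at most eight different `i`-th sides for each `i ∈ K` -/
theorem eight_sides (hn : Odd n) (P : Finset (Box n d)) (hP : IsOddProperPartition P) (K : Finset (Fin d))
    (hK : ∀ i ∈ K, (P.image (fun b => b i)).card ≤ 8) :
    3 ^ K.card * (2 ^ (d - K.card + 1) - 1) ≤ P.card := by
  have hex : ∀ i : Fin d, ∃ A : Finset (Fin n), i ∈ K → A.card = 2 ∧ ∀ b ∈ P, ¬ A ⊆ b i := by
    intro i
    by_cases hi : i ∈ K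
    · obtain ⟨A, h1, h2⟩ := separated hn P hP i (hK i hi)
      exact ⟨A, fun _ => ⟨h1, h2⟩⟩
    · exact ⟨∅, fun h => absurd h hi⟩
  choose A hA using hex
  have h := few_covered hn P hP K A 2 0 le_rfl (fun i hi => (hA i hi).1) (by
    intro b hb
    rw [Nat.le_zero, Finset.card_eq_zero, Finset.filter_eq_empty_iff]
    intro i hi
    exact (hA i hi).2 b hb)
  rw [Nat.sub_zero] at h
  have h1 : (2 + 2 / (2 ^ 2 - 2) : ℝ) = 3 := by norm_num
  rw [h1] at h
  have h2 : ((3 ^ K.card * (2 ^ (d - K.card + 1) - 1) : ℕ) : ℝ) ≤ P.card := by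
    rw [Nat.cast_mul, Nat.cast_sub Nat.one_le_two_pow]
    push_cast
    exact h
  exact_mod_cast h2

end Pool.Agent.H79.OB
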