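import Mathlib
import Pool.Agent.H63.OB.Defs

/-!
A partition of `[5]^3` into 25 odd proper boxes with few different sides in each coordinate. The subsets of `Fin 5` are
given by binary masks.
-/

set_option autoImplicit false

namespace Pool.Agent.H79.OB

open Finset Pool.Agent.H63.OB

/-- First sides. -/
def mA : Fin 25 → ℕ := ![1, 1, 1, 2, 2, 2, 2, 2, 4, 4, 4, 4, 7, 7, 7, 8, 16, 25, 25, 25, 25, 25, 26, 28, 28]
/-- Second sides. -/
def mB : Fin 25 → ℕ := ![1, 2, 28, 1, 4, 4, 25, 26, 2, 25, 26, 28, 1, 2, 4, 7, 7, 1, 2, 8, 16, 28, 26, 1, 4]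
/-- Third sides. -/
def mC : Fin 25 → ℕ := ![28, 19, 2, 22, 2, 4, 8, 21, 22, 26, 1, 4, 1, 8, 25, 25, 25, 2, 4, 25, 25, 4, 2, 4, 2]

/-- the subset with mask `m` -/
def sd (m : ℕ) : Finset (Fin 5) := univ.filter (fun i : Fin 5 => m.testBit i.val = true)

/-- the masks of the box `k` -/
def msk (k : Fin 25) (i : Fin 3) : ℕ := ![mA k, mB k, mC k] i

/-- the box `k` -/
def bx (k : Fin 25) : Box 5 3 := fun i => sd (msk k i)

private theorem mem_sd (m : ℕ) (i : Fin 5) : i ∈ sd m ↔ m.testBit i.val = true := by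
  unfold sd
  rw [mem_filter]
  exact ⟨fun h => h.2, fun h => ⟨mem_univ _, h⟩⟩

private theorem good : ∀ (k : Fin 25) (i : Fin 3), Odd (sd (msk k i)).card ∧ sd (msk k i) ≠ univ := by
  decide +kernel

/-- incidence of a point and the box `k` -/
def inc (a b c : Fin 5) (k : Fin 25) : Bool :=
  (mA k).testBit a.val && (mB k).testBit b.val && (mC k).testBit c.val

private theorem check : ∀ a b c : Fin 5, ∃ k : Fin 25, inc a b c k = true ∧ ∀ k' : Fin 25, inc a b c k' = true → k' = k := by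
  decide +kernel

private theorem inc_iff (x : Fin 3 → Fin 5) (k : Fin 25) : inc (x 0) (x 1) (x 2) k = true ↔ ∀ i, x i ∈ bx k i := by
  unfold inc
  rw [Bool.and_eq_true, Bool.and_eq_true]
  constructor
  · rintro ⟨⟨h0, h1⟩, h2⟩ i
    fin_cases i
    · exact (mem_sd _ _).2 h0
    · exact (mem_sd _ _).2 h1
    · exact (mem_sd _ _).2 h2
  · intro h
    exact ⟨⟨(mem_sd _ _).1 (h 0), (mem_sd _ _).1 (h 1)⟩, (mem_sd _ _).1 (h 2)⟩

private theorem few : ∀ i : Fin 3, ((univ : Finset (Fin 25)).image (fun k => msk k i)).card ≤ if i = 2 then 10 else 9 := by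
  decide +kernel

theorem exists_25 : ∃ P : Finset (Box 5 3), IsOddProperPartition P ∧ P.card = 25 ∧
    (∀ i, i ≠ 2 → (P.image (fun b => b i)).card ≤ 9) ∧ (P.image (fun b => b 2)).card ≤ 10 := by
  classical
  have hfew : ∀ i : Fin 3, ((univ.image bx).image (fun b => b i)).card ≤ if i = 2 then 10 else 9 := by
    intro i
    have h1 : (univ.image bx).image (fun b => b i) = ((univ : Finset (Fin 25)).image (fun k => msk k i)).image sd := by
      rw [Finset.image_image, Finset.image_image]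
      rfl
    rw [h1]
    exact Finset.card_image_le.trans (few i)
  refine ⟨univ.image bx, ⟨?_, ?_⟩, ?_, ?_, ?_⟩
  · intro b hb i
    obtain ⟨k, -, rfl⟩ := mem_image.1 hb
    exact good k i
  · intro x
    obtain ⟨k, hk, huniq⟩ := check (x 0) (x 1) (x 2)
    refine ⟨bx k, ⟨mem_image.2 ⟨k, mem_univ _, rfl⟩, (inc_iff x k).1 hk⟩, ?_⟩
    rintro c ⟨hc, hxc⟩
    obtain ⟨k', -, rfl⟩ := mem_image.1 hc
    rw [huniq k' ((inc_iff x k').2 hxc)]
  · rw [Finset.card_image_of_injective, Finset.card_univ, Fintype.card_fin]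
    intro k k' h
    have hne : ∀ i, ∃ y, y ∈ bx k i := fun i => Finset.card_pos.1 (good k i).1.pos
    choose x hx using hne
    obtain ⟨k₀, -, huniq⟩ := check (x 0) (x 1) (x 2)
    have h1 := huniq k ((inc_iff x k).2 hx)
    have h2 := huniq k' ((inc_iff x k').2 (fun i => h ▸ hx i))
    rw [h1, h2]
  · intro i hi
    have h := hfew i
    rwa [if_neg hi] at h
  · have h := hfew 2
    rwa [if_pos rfl] at h

end Pool.Agent.H79.OB
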